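import Pool.Agent.Lib.MP_6756f0_al.PExample

namespace Pool.Agent.Results.MP_6756f0_al.GolodProduct

open MvPolynomial Pool.Agent.Lib.MP_6756f0_al Pool.Agent.Lib.MP_6756f0_al.PDefs

attribute [local instance] MvPolynomial.gradedAlgebra in
lemma comp_mem {k : Type} [Field k] {I : Ideal (MvPolynomial (Fin 4) k)}
    (h : I.IsHomogeneous (homogeneousSubmodule (Fin 4) k)) :
    ∀ f ∈ I, ∀ d, homogeneousComponent d f ∈ I := by
  intro f hf d
  rw [← MvPolynomial.decomposition.decompose'_apply]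
  exact h d hf

attribute [local instance] MvPolynomial.gradedAlgebra in
/-- In `k[x₀,x₁,x₂,x₃]` with irrelevant ideal `m`, the homogeneous ideals
`I₁ = m (x₀⁴, x₁⁴, x₂⁴, x₃⁴) + m¹²` and `I₂ = m²` are Golod and their product is not. -/
theorem result (k : Type) [Field k] :
    ∃ I₁ I₂ : Ideal (MvPolynomial (Fin 4) k),
      I₁ = irr k 4 * fourth k 4 ⊔ irr k 4 ^ 12 ∧ I₂ = irr k 4 ^ 2 ∧
      IsAdmissible I₁ ∧ IsAdmissible I₂ ∧ IsGolod I₁ ∧ IsGolod I₂ ∧ ¬ IsGolod (I₁ * I₂) :=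
  ⟨_, _, rfl, rfl, ⟨I1_ne_top, comp_mem ((homog_mm.mul homog_CC).sup (homog_mm_pow 12)), I1_le⟩,
    ⟨mm_sq_ne_top, comp_mem (homog_mm_pow 2), le_rfl⟩, serre_I1, serre_I2, not_serre_J⟩

end Pool.Agent.Results.MP_6756f0_al.GolodProduct
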